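import Mathlib
import Pool.Agent.H590.NL.Stm

/-!
# NL590 ZD (helper190 for helper590): the marginal is twice differentiable, with gaussian bounds
-/

set_option autoImplicit false

noncomputable section

open MeasureTheory Filter Topology Set
open scoped BigOperators ENNReal

namespace Pool.Agent.H190.NL

open H590NL

section
variable {m : ℕ} {κ : Type} [Fintype κ]

omit [Fintype κ] in
theorem uu_eq (v : κ → V (m + 1)) (s : ℝ) (x : V m) (j : κ) :
    uu v s x j = v j 0 * s + ∑ i : Fin m, v j i.succ * x i := by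
  unfold uu ip
  rw [Fin.sum_univ_succ]
  simp

/-- `L = d/ds G` -/
def LL (ω : ℝ → ℝ) (v : κ → V (m + 1)) (s : ℝ) (x : V m) : ℝ :=
  ∑ j, 2 * v j 0 * uu v s x j * ω (uu v s x j)

/-- `L' = d²/ds² G` -/
def L2 (ψ2 : ℝ → ℝ) (v : κ → V (m + 1)) (s : ℝ) (x : V m) : ℝ :=
  ∑ j, v j 0 ^ 2 * ψ2 (uu v s x j)

/-- `∑ u_j²` -/
def qq (v : κ → V (m + 1)) (s : ℝ) (x : V m) : ℝ := ∑ j, uu v s x j ^ 2

/-- the gaussian -/
def T0 (a : ℝ) (x : V m) : ℝ := Real.exp (-(a * ∑ i, x i ^ 2))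

theorem cont_uu (v : κ → V (m + 1)) (s : ℝ) (j : κ) : Continuous (fun x : V m => uu v s x j) := by
  have h : (fun x : V m => uu v s x j) = fun x => v j 0 * s + ∑ i : Fin m, v j i.succ * x i :=
    funext fun x => uu_eq v s x j
  rw [h]
  fun_prop

theorem d_uu (v : κ → V (m + 1)) (s : ℝ) (x : V m) (j : κ) :
    HasDerivAt (fun s => uu v s x j) (v j 0) s := by
  have h : (fun s : ℝ => uu v s x j) = fun s => v j 0 * s + ∑ i : Fin m, v j i.succ * x i :=
    funext fun s => uu_eq v s x j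
  rw [h]
  simpa using ((hasDerivAt_id s).const_mul (v j 0)).add_const (∑ i : Fin m, v j i.succ * x i)

variable {p b C : ℝ} {ψ ω ψ2 : ℝ → ℝ} {ν : Measure ℝ}

theorem cont_GG (K : Kr p b C ψ ω ψ2 ν) (v : κ → V (m + 1)) (s : ℝ) :
    Continuous (fun x : V m => GG ψ v s x) := by
  unfold GG
  have hψ : Continuous ψ := continuous_iff_continuousAt.2 fun u => (K.d1 u).continuousAt
  exact continuous_finsetSum _ fun j _ => hψ.comp (cont_uu v s j)

theorem cont_LL (K : Kr p b C ψ ω ψ2 ν) (v : κ → V (m + 1)) (s : ℝ) :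
    Continuous (fun x : V m => LL ω v s x) := by
  unfold LL
  exact continuous_finsetSum _ fun j _ =>
    (continuous_const.mul (cont_uu v s j)).mul (K.cω.comp (cont_uu v s j))

theorem cont_L2 (K : Kr p b C ψ ω ψ2 ν) (v : κ → V (m + 1)) (s : ℝ) :
    Continuous (fun x : V m => L2 ψ2 v s x) := by
  unfold L2
  exact continuous_finsetSum _ fun j _ => continuous_const.mul (K.c2.comp (cont_uu v s j))

theorem d_GG (K : Kr p b C ψ ω ψ2 ν) (v : κ → V (m + 1)) (s : ℝ) (x : V m) :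
    HasDerivAt (fun s => GG ψ v s x) (LL ω v s x) s := by
  unfold GG LL
  refine (HasDerivAt.fun_sum fun j _ => (K.d1 (uu v s x j)).comp s (d_uu v s x j)).congr_deriv ?_
  refine Finset.sum_congr rfl fun j _ => ?_
  ring

theorem d_LL (K : Kr p b C ψ ω ψ2 ν) (v : κ → V (m + 1)) (s : ℝ) (x : V m) :
    HasDerivAt (fun s => LL ω v s x) (L2 ψ2 v s x) s := by
  have h : (fun s => LL ω v s x) = fun s => ∑ j, v j 0 * (2 * uu v s x j * ω (uu v s x j)) := by
    funext s
    unfold LL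
    refine Finset.sum_congr rfl fun j _ => ?_
    ring
  rw [h]
  unfold L2
  refine (HasDerivAt.fun_sum fun j _ =>
    ((K.d2 (uu v s x j)).comp s (d_uu v s x j)).const_mul (v j 0)).congr_deriv ?_
  refine Finset.sum_congr rfl fun j _ => ?_
  ring

theorem d_exp (K : Kr p b C ψ ω ψ2 ν) (v : κ → V (m + 1)) (s : ℝ) (x : V m) :
    HasDerivAt (fun s => Real.exp (-(GG ψ v s x))) (-(Real.exp (-(GG ψ v s x)) * LL ω v s x)) s := by
  refine ((d_GG K v s x).neg.exp).congr_deriv ?_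
  simp

theorem d_exp2 (K : Kr p b C ψ ω ψ2 ν) (v : κ → V (m + 1)) (s : ℝ) (x : V m) :
    HasDerivAt (fun s => -(Real.exp (-(GG ψ v s x)) * LL ω v s x))
      (Real.exp (-(GG ψ v s x)) * (LL ω v s x ^ 2 - L2 ψ2 v s x)) s := by
  refine ((d_exp K v s x).mul (d_LL K v s x)).neg.congr_deriv ?_
  ring

/-- constant in the Cauchy-Schwarz bound -/
def KK (C : ℝ) (v : κ → V (m + 1)) : ℝ := ∑ j, (2 * v j 0 * C) ^ 2

theorem KK_nonneg (C : ℝ) (v : κ → V (m + 1)) : 0 ≤ KK C v :=
  Finset.sum_nonneg fun _ _ => sq_nonneg _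

theorem qq_nonneg (v : κ → V (m + 1)) (s : ℝ) (x : V m) : 0 ≤ qq v s x :=
  Finset.sum_nonneg fun _ _ => sq_nonneg _

theorem LL_sq (K : Kr p b C ψ ω ψ2 ν) (v : κ → V (m + 1)) (s : ℝ) (x : V m) :
    LL ω v s x ^ 2 ≤ KK C v * qq v s x := by
  have h1 : LL ω v s x = ∑ j, (2 * v j 0 * ω (uu v s x j)) * uu v s x j := by
    unfold LL
    refine Finset.sum_congr rfl fun j _ => ?_
    ring
  rw [h1]
  refine (Finset.sum_mul_sq_le_sq_mul_sq _ _ _).trans ?_
  refine mul_le_mul_of_nonneg_right ?_ (qq_nonneg v s x)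
  refine Finset.sum_le_sum fun j _ => ?_
  rw [mul_pow, mul_pow (2 * v j 0)]
  have h2 := K.bω (uu v s x j)
  have h3 := K.hb
  exact mul_le_mul_of_nonneg_left (pow_le_pow_left₀ (by linarith) h2.2 2) (sq_nonneg _)

theorem L2_abs (K : Kr p b C ψ ω ψ2 ν) (v : κ → V (m + 1)) (s : ℝ) (x : V m) :
    |L2 ψ2 v s x| ≤ ∑ j, v j 0 ^ 2 * C := by
  unfold L2
  refine (Finset.abs_sum_le_sum_abs _ _).trans (Finset.sum_le_sum fun j _ => ?_)
  rw [abs_mul, abs_of_nonneg (sq_nonneg (v j 0))]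
  exact mul_le_mul_of_nonneg_left (K.b2 _) (sq_nonneg _)

theorem GG_ge (K : Kr p b C ψ ω ψ2 ν) (v : κ → V (m + 1)) (s : ℝ) (x : V m) :
    b * qq v s x ≤ GG ψ v s x := by
  unfold GG qq
  rw [Finset.mul_sum]
  exact Finset.sum_le_sum fun j _ => K.low _

theorem key (K : Kr p b C ψ ω ψ2 ν) (v : κ → V (m + 1)) {c : ℝ}
    (hc : ∀ x : V (m + 1), c * ∑ i, x i ^ 2 ≤ ∑ k, ip (v k) x ^ 2) {A D : ℝ} (hA : 0 ≤ A)
    (hD : 0 ≤ D) (s : ℝ) (x : V m) :
    (A + D * qq v s x) * Real.exp (-(GG ψ v s x)) ≤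
      (A + D * (2 / b)) * (Real.exp (-(b * c / 2 * s ^ 2)) * T0 (b * c / 2) x) := by
  have hb := K.hb
  have hq := qq_nonneg v s x
  have h1 : c * (s ^ 2 + ∑ i, x i ^ 2) ≤ qq v s x := by
    have := hc (Fin.cons s x : Fin (m + 1) → ℝ)
    rw [Fin.sum_univ_succ] at this
    simpa [qq, uu] using this
  have h2 : Real.exp (-(GG ψ v s x)) ≤ Real.exp (-(b / 2 * qq v s x)) *
      (Real.exp (-(b * c / 2 * s ^ 2)) * T0 (b * c / 2) x) := by
    unfold T0
    rw [← Real.exp_add, ← Real.exp_add]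
    apply Real.exp_le_exp.2
    have h3 := GG_ge K v s x
    have h4 : b / 2 * (c * (s ^ 2 + ∑ i, x i ^ 2)) ≤ b / 2 * qq v s x :=
      mul_le_mul_of_nonneg_left h1 (by positivity)
    nlinarith
  have hT : 0 ≤ Real.exp (-(b * c / 2 * s ^ 2)) * T0 (b * c / 2) x := by
    unfold T0; positivity
  have h5 : (A + D * qq v s x) * Real.exp (-(b / 2 * qq v s x)) ≤ A + D * (2 / b) := by
    have h6 : Real.exp (-(b / 2 * qq v s x)) ≤ 1 := by
      rw [Real.exp_le_one_iff]
      have : 0 ≤ b / 2 * qq v s x := by positivity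
      linarith
    have h7 : qq v s x * Real.exp (-(b / 2 * qq v s x)) ≤ 2 / b := by
      have h8 := Real.add_one_le_exp (b / 2 * qq v s x)
      rw [Real.exp_neg, ← div_eq_mul_inv, div_le_div_iff₀ (Real.exp_pos _) hb]
      linarith
    have h9 : A * Real.exp (-(b / 2 * qq v s x)) ≤ A := by
      calc A * Real.exp (-(b / 2 * qq v s x)) ≤ A * 1 := mul_le_mul_of_nonneg_left h6 hA
        _ = A := mul_one _
    have h10 := mul_le_mul_of_nonneg_left h7 hD
    linarith
  calc (A + D * qq v s x) * Real.exp (-(GG ψ v s x)) ≤ (A + D * qq v s x) *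
        (Real.exp (-(b / 2 * qq v s x)) * (Real.exp (-(b * c / 2 * s ^ 2)) * T0 (b * c / 2) x)) :=
        mul_le_mul_of_nonneg_left h2 (by positivity)
    _ = ((A + D * qq v s x) * Real.exp (-(b / 2 * qq v s x))) *
        (Real.exp (-(b * c / 2 * s ^ 2)) * T0 (b * c / 2) x) := by ring
    _ ≤ _ := mul_le_mul_of_nonneg_right h5 hT

theorem int_T0 {a : ℝ} (ha : 0 < a) : Integrable (fun x : V m => T0 a x) := by
  have h : (fun x : V m => T0 a x) = fun x => ∏ i, Real.exp (-a * x i ^ 2) := by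
    funext x
    unfold T0
    rw [← Real.exp_sum, Finset.mul_sum, ← Finset.sum_neg_distrib]
    congr 1
    refine Finset.sum_congr rfl fun i _ => ?_
    ring
  rw [h]
  exact Integrable.fintype_prod (f := fun _ : Fin m => fun t : ℝ => Real.exp (-a * t ^ 2))
    fun _ => integrable_exp_neg_mul_sq ha

theorem T0_pos (a : ℝ) (x : V m) : 0 < T0 a x := Real.exp_pos _

theorem exp_s_le {a : ℝ} (ha : 0 ≤ a) (s : ℝ) : Real.exp (-(a * s ^ 2)) ≤ 1 := by
  rw [Real.exp_le_one_iff]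
  have : 0 ≤ a * s ^ 2 := by positivity
  linarith

end

theorem ZD (h : S_LA) : S_ZD := by
  intro m κ _ p b C ψ ω ψ2 ν hp1 hp2 K v hv
  obtain ⟨c, hc0, hc⟩ := (h (m + 1) κ v).2 hv
  have hb := K.hb
  obtain ⟨a, ha⟩ : ∃ a : ℝ, a = b * c / 2 := ⟨_, rfl⟩
  have ha0 : 0 < a := by rw [ha]; positivity
  have hkey : ∀ {A D : ℝ}, 0 ≤ A → 0 ≤ D → ∀ (s : ℝ) (x : V m),
      (A + D * qq v s x) * Real.exp (-(GG ψ v s x)) ≤
        (A + D * (2 / b)) * (Real.exp (-(a * s ^ 2)) * T0 a x) := by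
    intro A D hA hD s x
    rw [ha]
    exact key K v hc hA hD s x
  have hT0i : Integrable (fun x : V m => T0 a x) := int_T0 ha0
  have hC0 : 0 ≤ C := by
    have := K.bω 0
    linarith
  have hK0 := KK_nonneg C v
  set k := KK C v with hk
  set M2 : ℝ := ∑ j, v j 0 ^ 2 * C with hM2
  have hM20 : 0 ≤ M2 := Finset.sum_nonneg fun j _ => by positivity
  -- pointwise bounds
  have b0 : ∀ (s : ℝ) (x : V m), Real.exp (-(GG ψ v s x)) ≤ Real.exp (-(a * s ^ 2)) * T0 a x := by
    intro s x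
    have := hkey (A := 1) (D := 0) zero_le_one le_rfl s x
    simpa using this
  have b1 : ∀ (s : ℝ) (x : V m), ‖-(Real.exp (-(GG ψ v s x)) * LL ω v s x)‖ ≤
      (1 + k * (2 / b)) * (Real.exp (-(a * s ^ 2)) * T0 a x) := by
    intro s x
    refine le_trans ?_ (hkey zero_le_one hK0 s x)
    rw [norm_neg, norm_mul, Real.norm_of_nonneg (Real.exp_pos _).le, mul_comm]
    refine mul_le_mul_of_nonneg_right ?_ (Real.exp_pos _).le
    have h1 := LL_sq K v s x
    rw [← hk] at h1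
    rw [Real.norm_eq_abs]
    have h2 : |LL ω v s x| ≤ 1 + LL ω v s x ^ 2 := by
      rw [← sq_abs]
      nlinarith [sq_nonneg (|LL ω v s x| - 1), abs_nonneg (LL ω v s x)]
    linarith
  have b2 : ∀ (s : ℝ) (x : V m), ‖Real.exp (-(GG ψ v s x)) * (LL ω v s x ^ 2 - L2 ψ2 v s x)‖ ≤
      (M2 + k * (2 / b)) * (Real.exp (-(a * s ^ 2)) * T0 a x) := by
    intro s x
    refine le_trans ?_ (hkey hM20 hK0 s x)
    rw [norm_mul, Real.norm_of_nonneg (Real.exp_pos _).le, mul_comm]
    refine mul_le_mul_of_nonneg_right ?_ (Real.exp_pos _).le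
    have h1 := LL_sq K v s x
    rw [← hk] at h1
    have h2 := L2_abs K v s x
    rw [← hM2] at h2
    rw [Real.norm_eq_abs]
    refine (abs_sub _ _).trans ?_
    rw [abs_of_nonneg (sq_nonneg _)]
    linarith
  have bT : ∀ (s : ℝ) (x : V m), Real.exp (-(a * s ^ 2)) * T0 a x ≤ T0 a x := by
    intro s x
    calc Real.exp (-(a * s ^ 2)) * T0 a x ≤ 1 * T0 a x :=
          mul_le_mul_of_nonneg_right (exp_s_le ha0.le s) (T0_pos a x).le
      _ = T0 a x := one_mul _
  -- measurability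
  have m0 : ∀ s, AEStronglyMeasurable (fun x : V m => Real.exp (-(GG ψ v s x))) volume := fun s =>
    (Real.continuous_exp.comp (cont_GG K v s).neg).aestronglyMeasurable
  have m1 : ∀ s, AEStronglyMeasurable (fun x : V m => -(Real.exp (-(GG ψ v s x)) * LL ω v s x))
      volume := fun s =>
    (((Real.continuous_exp.comp (cont_GG K v s).neg).mul (cont_LL K v s)).neg).aestronglyMeasurable
  have m2 : ∀ s, AEStronglyMeasurable
      (fun x : V m => Real.exp (-(GG ψ v s x)) * (LL ω v s x ^ 2 - L2 ψ2 v s x)) volume := fun s =>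
    ((Real.continuous_exp.comp (cont_GG K v s).neg).mul
      (((cont_LL K v s).pow 2).sub (cont_L2 K v s))).aestronglyMeasurable
  have i0 : ∀ s, Integrable (fun x : V m => Real.exp (-(GG ψ v s x))) := by
    intro s
    refine (hT0i.const_mul (Real.exp (-(a * s ^ 2)))).mono' (m0 s) (Eventually.of_forall fun x => ?_)
    rw [Real.norm_of_nonneg (Real.exp_pos _).le]
    exact b0 s x
  have i1 : ∀ s, Integrable (fun x : V m => -(Real.exp (-(GG ψ v s x)) * LL ω v s x)) := by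
    intro s
    refine ((hT0i.const_mul (Real.exp (-(a * s ^ 2)))).const_mul (1 + k * (2 / b))).mono' (m1 s)
      (Eventually.of_forall fun x => b1 s x)
  have hZ1 : ∀ s, Z1 ψ ω v s = ∫ x : V m, -(Real.exp (-(GG ψ v s x)) * LL ω v s x) := by
    intro s
    rw [integral_neg]
    rfl
  have hnn1 : 0 ≤ 1 + k * (2 / b) := by positivity
  have hnn2 : 0 ≤ M2 + k * (2 / b) := by positivity
  have D0 : ∀ s, HasDerivAt (ZZ ψ v) (Z1 ψ ω v s) s := by
    intro s
    have := (hasDerivAt_integral_of_dominated_loc_of_deriv_le (μ := (volume : Measure (V m)))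
      (F := fun s x => Real.exp (-(GG ψ v s x)))
      (F' := fun s x => -(Real.exp (-(GG ψ v s x)) * LL ω v s x)) (x₀ := s) (s := Set.univ)
      (bound := fun x => (1 + k * (2 / b)) * T0 a x) univ_mem
      (Eventually.of_forall fun s => m0 s) (i0 s) (m1 s)
      (Eventually.of_forall fun x s _ => (b1 s x).trans
        (mul_le_mul_of_nonneg_left (bT s x) hnn1)) (hT0i.const_mul _)
      (Eventually.of_forall fun x s _ => d_exp K v s x)).2
    rw [hZ1]
    exact this
  have D1 : ∀ s, HasDerivAt (Z1 ψ ω v)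
      (∫ x : V m, Real.exp (-(GG ψ v s x)) * (LL ω v s x ^ 2 - L2 ψ2 v s x)) s := by
    intro s
    have := (hasDerivAt_integral_of_dominated_loc_of_deriv_le (μ := (volume : Measure (V m)))
      (F := fun s x => -(Real.exp (-(GG ψ v s x)) * LL ω v s x))
      (F' := fun s x => Real.exp (-(GG ψ v s x)) * (LL ω v s x ^ 2 - L2 ψ2 v s x)) (x₀ := s)
      (s := Set.univ) (bound := fun x => (M2 + k * (2 / b)) * T0 a x) univ_mem
      (Eventually.of_forall fun s => m1 s) (i1 s) (m2 s)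
      (Eventually.of_forall fun x s _ => (b2 s x).trans
        (mul_le_mul_of_nonneg_left (bT s x) hnn2)) (hT0i.const_mul _)
      (Eventually.of_forall fun x s _ => d_exp2 K v s x)).2
    have e : Z1 ψ ω v = fun s => ∫ x : V m, -(Real.exp (-(GG ψ v s x)) * LL ω v s x) :=
      funext hZ1
    rw [e]
    exact this
  set I0 : ℝ := ∫ x : V m, T0 a x with hI0
  have hI00 : 0 ≤ I0 := integral_nonneg fun x => (T0_pos a x).le
  refine ⟨i0, fun s => ⟨integral_exp_pos (i0 s), ?_⟩, D0, ⟨_, D1⟩, (1 + k * (2 / b)) * I0, a, ha0,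
    fun s => ⟨?_, ?_⟩⟩
  · unfold ZZ
    rw [← integral_neg_eq_self]
    congr 1
    funext x
    have hu : ∀ j, uu v (-s) (-x) j = -(uu v s x j) := by
      intro j
      rw [uu_eq, uu_eq, mul_neg, neg_add, ← Finset.sum_neg_distrib]
      congr 1
      refine Finset.sum_congr rfl fun i _ => ?_
      simp
    have hG : GG ψ v (-s) (-x) = GG ψ v s x := by
      unfold GG
      refine Finset.sum_congr rfl fun j _ => ?_
      rw [hu, (K.even _).1]
    rw [hG]
  · unfold ZZ
    have h1 : ∫ x : V m, Real.exp (-(GG ψ v s x)) ≤ ∫ x : V m, Real.exp (-(a * s ^ 2)) * T0 a x :=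
      integral_mono (i0 s) (hT0i.const_mul _) (b0 s)
    rw [integral_const_mul, ← hI0] at h1
    refine h1.trans ?_
    have h2 : 0 ≤ Real.exp (-(a * s ^ 2)) * I0 := by positivity
    have h3 : 0 ≤ k * (2 / b) := by positivity
    nlinarith
  · rw [hZ1, ← Real.norm_eq_abs]
    refine (norm_integral_le_of_norm_le
      ((hT0i.const_mul (Real.exp (-(a * s ^ 2)))).const_mul (1 + k * (2 / b)))
      (Eventually.of_forall (b1 s))).trans (le_of_eq ?_)
    rw [integral_const_mul, integral_const_mul, ← hI0]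
    ring

end Pool.Agent.H190.NL
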